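import Mathlib

namespace Pool.Agent.Results.MP_9c9d6b_nt.NonRecip

open Polynomial

/-- the remainders `r_n` of the greedy expansion of `1` -/
noncomputable def rem (β : ℝ) : ℕ → ℝ
  | 0 => 1
  | n + 1 => β * rem β n - (⌊β * rem β n⌋ : ℤ)

/-- the digit `c_n = ⌊β r_{n-1}⌋` (used for `n ≥ 1`) -/
noncomputable def digit (β : ℝ) (n : ℕ) : ℤ := ⌊β * rem β (n - 1)⌋

/-- `p ≥ 1` and `c_{n+m} = c_{n+m+p}` for all `n ≥ 1` -/
def EvPer (β : ℝ) (m p : ℕ) : Prop :=
  1 ≤ p ∧ ∀ n, 1 ≤ n → digit β (n + m) = digit β (n + m + p)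

/-- `β` is a Salem number -/
def IsSalem (β : ℝ) : Prop :=
  1 < β ∧ IsIntegral ℤ β ∧
    (∀ α : ℂ, aeval α (minpoly ℤ β) = 0 → α ≠ (β : ℂ) → ‖α‖ ≤ 1) ∧
    ∃ α : ℂ, aeval α (minpoly ℤ β) = 0 ∧ ‖α‖ = 1

/-- `P_k = x^k - c_1 x^(k-1) - ... - c_k` -/
noncomputable def Pk (β : ℝ) (k : ℕ) : ℤ[X] :=
  X ^ k - ∑ i ∈ Finset.Icc 1 k, C (digit β i) * X ^ (k - i)

noncomputable def P : ℤ[X] := X ^ 6 - 5 * X ^ 5 - 3 * X ^ 4 + 2 * X ^ 3 - 3 * X ^ 2 - 5 * X + 1

noncomputable def Q : ℤ[X] :=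
  X ^ 27 + X ^ 25 - X ^ 24 + 2 * X ^ 20 - X ^ 19 + X ^ 18 - 2 * X ^ 17 + X ^ 16 + X ^ 14 + X ^ 13 - X ^ 12 + X ^ 11 - 2 * X ^ 10 + 2 * X ^ 9 - X ^ 8 + 2 * X ^ 7 - X ^ 3 + X ^ 2 + 1

def L : List ℤ := [2, 4, 1, 0, 4, 0, 5, 1, 0, 0, 4, 2, 2, 1, 2, 4, 1, 4, 0, 3, 3, 5, 0, 5, 0, 4, 0, 1, 4, 2, 4, 4]

def D (n : ℕ) : ℤ := if n = 1 then 5 else L.getD ((n - 2) % 32) 0

structure Good (β : ℝ) : Prop where
  lo : 55024210 / 10 ^ 7 < β
  hi : β < 55024211 / 10 ^ 7
  eq : β ^ 6 - 5 * β ^ 5 - 3 * β ^ 4 + 2 * β ^ 3 - 3 * β ^ 2 - 5 * β + 1 = 0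

theorem exists_good : ∃ β, Good β := by
  have hc : ContinuousOn (fun β : ℝ => β ^ 6 - 5 * β ^ 5 - 3 * β ^ 4 + 2 * β ^ 3 - 3 * β ^ 2 - 5 * β + 1)
      (Set.Icc (55024210 / 10 ^ 7) (55024211 / 10 ^ 7)) := by fun_prop
  obtain ⟨β, ⟨h1, h2⟩, h3⟩ := intermediate_value_Ioo (by norm_num) hc
    (show (0 : ℝ) ∈ Set.Ioo _ _ by constructor <;> norm_num)
  exact ⟨β, h1, h2, h3⟩

theorem pw {β : ℝ} (h : Good β) (k : ℕ) :
    (55024210 / 10 ^ 7 : ℝ) ^ k ≤ β ^ k ∧ β ^ k ≤ (55024211 / 10 ^ 7 : ℝ) ^ k :=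
  ⟨pow_le_pow_left₀ (by norm_num) h.lo.le k,
    pow_le_pow_left₀ (by have := h.lo; linarith [show (0 : ℝ) < 55024210 / 10 ^ 7 by norm_num]) h.hi.le k⟩

theorem step {β : ℝ} {n : ℕ} {u v : ℝ} {d : ℤ} (h1 : rem β n = u) (h2 : β * u = v)
    (h3 : (d : ℝ) ≤ v) (h4 : v < d + 1) : digit β (n + 1) = d ∧ rem β (n + 1) = v - d := by
  have : ⌊β * rem β n⌋ = d := by rw [h1, h2, Int.floor_eq_iff]; exact ⟨h3, h4⟩
  refine ⟨by simpa [digit] using this, ?_⟩
  rw [rem, this, h1, h2]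

theorem s1 {β : ℝ} (h : Good β) : digit β 1 = 5 ∧ rem β 1 = (-5) + (1) * β := by
  have h1 := h.lo; have h1' := h.hi
  have h2 := pw h 2; have h3 := pw h 3; have h4 := pw h 4; have h5 := pw h 5
  norm_num at h1 h1' h2 h3 h4 h5
  have := step (d := 5) (v := (1) * β) (show rem β 0 = 1 from rfl)
    (by linear_combination (0) * h.eq) (by push_cast; linarith) (by push_cast; linarith)
  exact ⟨this.1, by rw [this.2]; push_cast; ring⟩

theorem s2 {β : ℝ} (h : Good β) : digit β 2 = 2 ∧ rem β 2 = (-2) + (-5) * β + (1) * β ^ 2 := by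
  have h1 := h.lo; have h1' := h.hi
  have h2 := pw h 2; have h3 := pw h 3; have h4 := pw h 4; have h5 := pw h 5
  norm_num at h1 h1' h2 h3 h4 h5
  have := step (d := 2) (v := (-5) * β + (1) * β ^ 2) (s1 h).2
    (by linear_combination (0) * h.eq) (by push_cast; linarith) (by push_cast; linarith)
  exact ⟨this.1, by rw [this.2]; push_cast; ring⟩

theorem s3 {β : ℝ} (h : Good β) : digit β 3 = 4 ∧ rem β 3 = (-4) + (-2) * β + (-5) * β ^ 2 + (1) * β ^ 3 := by
  have h1 := h.lo; have h1' := h.hi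
  have h2 := pw h 2; have h3 := pw h 3; have h4 := pw h 4; have h5 := pw h 5
  norm_num at h1 h1' h2 h3 h4 h5
  have := step (d := 4) (v := (-2) * β + (-5) * β ^ 2 + (1) * β ^ 3) (s2 h).2
    (by linear_combination (0) * h.eq) (by push_cast; linarith) (by push_cast; linarith)
  exact ⟨this.1, by rw [this.2]; push_cast; ring⟩

theorem s4 {β : ℝ} (h : Good β) : digit β 4 = 1 ∧ rem β 4 = (-1) + (-4) * β + (-2) * β ^ 2 + (-5) * β ^ 3 + (1) * β ^ 4 := by
  have h1 := h.lo; have h1' := h.hi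
  have h2 := pw h 2; have h3 := pw h 3; have h4 := pw h 4; have h5 := pw h 5
  norm_num at h1 h1' h2 h3 h4 h5
  have := step (d := 1) (v := (-4) * β + (-2) * β ^ 2 + (-5) * β ^ 3 + (1) * β ^ 4) (s3 h).2
    (by linear_combination (0) * h.eq) (by push_cast; linarith) (by push_cast; linarith)
  exact ⟨this.1, by rw [this.2]; push_cast; ring⟩

theorem s5 {β : ℝ} (h : Good β) : digit β 5 = 0 ∧ rem β 5 = (-1) * β + (-4) * β ^ 2 + (-2) * β ^ 3 + (-5) * β ^ 4 + (1) * β ^ 5 := by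
  have h1 := h.lo; have h1' := h.hi
  have h2 := pw h 2; have h3 := pw h 3; have h4 := pw h 4; have h5 := pw h 5
  norm_num at h1 h1' h2 h3 h4 h5
  have := step (d := 0) (v := (-1) * β + (-4) * β ^ 2 + (-2) * β ^ 3 + (-5) * β ^ 4 + (1) * β ^ 5) (s4 h).2
    (by linear_combination (0) * h.eq) (by push_cast; linarith) (by push_cast; linarith)
  exact ⟨this.1, by rw [this.2]; push_cast; ring⟩

theorem s6 {β : ℝ} (h : Good β) : digit β 6 = 4 ∧ rem β 6 = (-5) + (5) * β + (2) * β ^ 2 + (-6) * β ^ 3 + (1) * β ^ 4 := by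
  have h1 := h.lo; have h1' := h.hi
  have h2 := pw h 2; have h3 := pw h 3; have h4 := pw h 4; have h5 := pw h 5
  norm_num at h1 h1' h2 h3 h4 h5
  have := step (d := 4) (v := (-1) + (5) * β + (2) * β ^ 2 + (-6) * β ^ 3 + (1) * β ^ 4) (s5 h).2
    (by linear_combination (1) * h.eq) (by push_cast; linarith) (by push_cast; linarith)
  exact ⟨this.1, by rw [this.2]; push_cast; ring⟩

theorem s7 {β : ℝ} (h : Good β) : digit β 7 = 0 ∧ rem β 7 = (-5) * β + (5) * β ^ 2 + (2) * β ^ 3 + (-6) * β ^ 4 + (1) * β ^ 5 := by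
  have h1 := h.lo; have h1' := h.hi
  have h2 := pw h 2; have h3 := pw h 3; have h4 := pw h 4; have h5 := pw h 5
  norm_num at h1 h1' h2 h3 h4 h5
  have := step (d := 0) (v := (-5) * β + (5) * β ^ 2 + (2) * β ^ 3 + (-6) * β ^ 4 + (1) * β ^ 5) (s6 h).2
    (by linear_combination (0) * h.eq) (by push_cast; linarith) (by push_cast; linarith)
  exact ⟨this.1, by rw [this.2]; push_cast; ring⟩

theorem s8 {β : ℝ} (h : Good β) : digit β 8 = 5 ∧ rem β 8 = (-6) + (5) * β + (-2) * β ^ 2 + (3) * β ^ 3 + (5) * β ^ 4 + (-1) * β ^ 5 := by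
  have h1 := h.lo; have h1' := h.hi
  have h2 := pw h 2; have h3 := pw h 3; have h4 := pw h 4; have h5 := pw h 5
  norm_num at h1 h1' h2 h3 h4 h5
  have := step (d := 5) (v := (-1) + (5) * β + (-2) * β ^ 2 + (3) * β ^ 3 + (5) * β ^ 4 + (-1) * β ^ 5) (s7 h).2
    (by linear_combination (1) * h.eq) (by push_cast; linarith) (by push_cast; linarith)
  exact ⟨this.1, by rw [this.2]; push_cast; ring⟩

theorem s9 {β : ℝ} (h : Good β) : digit β 9 = 1 ∧ rem β 9 = (-11) * β + (2) * β ^ 2 := by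
  have h1 := h.lo; have h1' := h.hi
  have h2 := pw h 2; have h3 := pw h 3; have h4 := pw h 4; have h5 := pw h 5
  norm_num at h1 h1' h2 h3 h4 h5
  have := step (d := 1) (v := (1) + (-11) * β + (2) * β ^ 2) (s8 h).2
    (by linear_combination (-1) * h.eq) (by push_cast; linarith) (by push_cast; linarith)
  exact ⟨this.1, by rw [this.2]; push_cast; ring⟩

theorem s10 {β : ℝ} (h : Good β) : digit β 10 = 0 ∧ rem β 10 = (-11) * β ^ 2 + (2) * β ^ 3 := by
  have h1 := h.lo; have h1' := h.hi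
  have h2 := pw h 2; have h3 := pw h 3; have h4 := pw h 4; have h5 := pw h 5
  norm_num at h1 h1' h2 h3 h4 h5
  have := step (d := 0) (v := (-11) * β ^ 2 + (2) * β ^ 3) (s9 h).2
    (by linear_combination (0) * h.eq) (by push_cast; linarith) (by push_cast; linarith)
  exact ⟨this.1, by rw [this.2]; push_cast; ring⟩

theorem s11 {β : ℝ} (h : Good β) : digit β 11 = 0 ∧ rem β 11 = (-11) * β ^ 3 + (2) * β ^ 4 := by
  have h1 := h.lo; have h1' := h.hi
  have h2 := pw h 2; have h3 := pw h 3; have h4 := pw h 4; have h5 := pw h 5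
  norm_num at h1 h1' h2 h3 h4 h5
  have := step (d := 0) (v := (-11) * β ^ 3 + (2) * β ^ 4) (s10 h).2
    (by linear_combination (0) * h.eq) (by push_cast; linarith) (by push_cast; linarith)
  exact ⟨this.1, by rw [this.2]; push_cast; ring⟩

theorem s12 {β : ℝ} (h : Good β) : digit β 12 = 4 ∧ rem β 12 = (-4) + (-11) * β ^ 4 + (2) * β ^ 5 := by
  have h1 := h.lo; have h1' := h.hi
  have h2 := pw h 2; have h3 := pw h 3; have h4 := pw h 4; have h5 := pw h 5
  norm_num at h1 h1' h2 h3 h4 h5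
  have := step (d := 4) (v := (-11) * β ^ 4 + (2) * β ^ 5) (s11 h).2
    (by linear_combination (0) * h.eq) (by push_cast; linarith) (by push_cast; linarith)
  exact ⟨this.1, by rw [this.2]; push_cast; ring⟩

theorem s13 {β : ℝ} (h : Good β) : digit β 13 = 2 ∧ rem β 13 = (-4) + (6) * β + (6) * β ^ 2 + (-4) * β ^ 3 + (6) * β ^ 4 + (-1) * β ^ 5 := by
  have h1 := h.lo; have h1' := h.hi
  have h2 := pw h 2; have h3 := pw h 3; have h4 := pw h 4; have h5 := pw h 5
  norm_num at h1 h1' h2 h3 h4 h5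
  have := step (d := 2) (v := (-2) + (6) * β + (6) * β ^ 2 + (-4) * β ^ 3 + (6) * β ^ 4 + (-1) * β ^ 5) (s12 h).2
    (by linear_combination (2) * h.eq) (by push_cast; linarith) (by push_cast; linarith)
  exact ⟨this.1, by rw [this.2]; push_cast; ring⟩

theorem s14 {β : ℝ} (h : Good β) : digit β 14 = 2 ∧ rem β 14 = (-1) + (-9) * β + (3) * β ^ 2 + (8) * β ^ 3 + (-7) * β ^ 4 + (1) * β ^ 5 := by
  have h1 := h.lo; have h1' := h.hi
  have h2 := pw h 2; have h3 := pw h 3; have h4 := pw h 4; have h5 := pw h 5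
  norm_num at h1 h1' h2 h3 h4 h5
  have := step (d := 2) (v := (1) + (-9) * β + (3) * β ^ 2 + (8) * β ^ 3 + (-7) * β ^ 4 + (1) * β ^ 5) (s13 h).2
    (by linear_combination (-1) * h.eq) (by push_cast; linarith) (by push_cast; linarith)
  exact ⟨this.1, by rw [this.2]; push_cast; ring⟩

theorem s15 {β : ℝ} (h : Good β) : digit β 15 = 1 ∧ rem β 15 = (-2) + (4) * β + (-6) * β ^ 2 + (1) * β ^ 3 + (11) * β ^ 4 + (-2) * β ^ 5 := by
  have h1 := h.lo; have h1' := h.hi
  have h2 := pw h 2; have h3 := pw h 3; have h4 := pw h 4; have h5 := pw h 5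
  norm_num at h1 h1' h2 h3 h4 h5
  have := step (d := 1) (v := (-1) + (4) * β + (-6) * β ^ 2 + (1) * β ^ 3 + (11) * β ^ 4 + (-2) * β ^ 5) (s14 h).2
    (by linear_combination (1) * h.eq) (by push_cast; linarith) (by push_cast; linarith)
  exact ⟨this.1, by rw [this.2]; push_cast; ring⟩

theorem s16 {β : ℝ} (h : Good β) : digit β 16 = 2 ∧ rem β 16 = (-12) * β + (-2) * β ^ 2 + (-2) * β ^ 3 + (-5) * β ^ 4 + (1) * β ^ 5 := by
  have h1 := h.lo; have h1' := h.hi
  have h2 := pw h 2; have h3 := pw h 3; have h4 := pw h 4; have h5 := pw h 5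
  norm_num at h1 h1' h2 h3 h4 h5
  have := step (d := 2) (v := (2) + (-12) * β + (-2) * β ^ 2 + (-2) * β ^ 3 + (-5) * β ^ 4 + (1) * β ^ 5) (s15 h).2
    (by linear_combination (-2) * h.eq) (by push_cast; linarith) (by push_cast; linarith)
  exact ⟨this.1, by rw [this.2]; push_cast; ring⟩

theorem s17 {β : ℝ} (h : Good β) : digit β 17 = 4 ∧ rem β 17 = (-5) + (5) * β + (-9) * β ^ 2 + (-4) * β ^ 3 + (1) * β ^ 4 := by
  have h1 := h.lo; have h1' := h.hi
  have h2 := pw h 2; have h3 := pw h 3; have h4 := pw h 4; have h5 := pw h 5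
  norm_num at h1 h1' h2 h3 h4 h5
  have := step (d := 4) (v := (-1) + (5) * β + (-9) * β ^ 2 + (-4) * β ^ 3 + (1) * β ^ 4) (s16 h).2
    (by linear_combination (1) * h.eq) (by push_cast; linarith) (by push_cast; linarith)
  exact ⟨this.1, by rw [this.2]; push_cast; ring⟩

theorem s18 {β : ℝ} (h : Good β) : digit β 18 = 1 ∧ rem β 18 = (-1) + (-5) * β + (5) * β ^ 2 + (-9) * β ^ 3 + (-4) * β ^ 4 + (1) * β ^ 5 := by
  have h1 := h.lo; have h1' := h.hi
  have h2 := pw h 2; have h3 := pw h 3; have h4 := pw h 4; have h5 := pw h 5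
  norm_num at h1 h1' h2 h3 h4 h5
  have := step (d := 1) (v := (-5) * β + (5) * β ^ 2 + (-9) * β ^ 3 + (-4) * β ^ 4 + (1) * β ^ 5) (s17 h).2
    (by linear_combination (0) * h.eq) (by push_cast; linarith) (by push_cast; linarith)
  exact ⟨this.1, by rw [this.2]; push_cast; ring⟩

theorem s19 {β : ℝ} (h : Good β) : digit β 19 = 4 ∧ rem β 19 = (-5) + (4) * β + (-2) * β ^ 2 + (3) * β ^ 3 + (-6) * β ^ 4 + (1) * β ^ 5 := by
  have h1 := h.lo; have h1' := h.hi
  have h2 := pw h 2; have h3 := pw h 3; have h4 := pw h 4; have h5 := pw h 5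
  norm_num at h1 h1' h2 h3 h4 h5
  have := step (d := 4) (v := (-1) + (4) * β + (-2) * β ^ 2 + (3) * β ^ 3 + (-6) * β ^ 4 + (1) * β ^ 5) (s18 h).2
    (by linear_combination (1) * h.eq) (by push_cast; linarith) (by push_cast; linarith)
  exact ⟨this.1, by rw [this.2]; push_cast; ring⟩

theorem s20 {β : ℝ} (h : Good β) : digit β 20 = 0 ∧ rem β 20 = (-1) + (7) * β ^ 2 + (-4) * β ^ 3 + (6) * β ^ 4 + (-1) * β ^ 5 := by
  have h1 := h.lo; have h1' := h.hi
  have h2 := pw h 2; have h3 := pw h 3; have h4 := pw h 4; have h5 := pw h 5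
  norm_num at h1 h1' h2 h3 h4 h5
  have := step (d := 0) (v := (-1) + (7) * β ^ 2 + (-4) * β ^ 3 + (6) * β ^ 4 + (-1) * β ^ 5) (s19 h).2
    (by linear_combination (1) * h.eq) (by push_cast; linarith) (by push_cast; linarith)
  exact ⟨this.1, by rw [this.2]; push_cast; ring⟩

theorem s21 {β : ℝ} (h : Good β) : digit β 21 = 3 ∧ rem β 21 = (-2) + (-6) * β + (-3) * β ^ 2 + (9) * β ^ 3 + (-7) * β ^ 4 + (1) * β ^ 5 := by
  have h1 := h.lo; have h1' := h.hi
  have h2 := pw h 2; have h3 := pw h 3; have h4 := pw h 4; have h5 := pw h 5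
  norm_num at h1 h1' h2 h3 h4 h5
  have := step (d := 3) (v := (1) + (-6) * β + (-3) * β ^ 2 + (9) * β ^ 3 + (-7) * β ^ 4 + (1) * β ^ 5) (s20 h).2
    (by linear_combination (-1) * h.eq) (by push_cast; linarith) (by push_cast; linarith)
  exact ⟨this.1, by rw [this.2]; push_cast; ring⟩

theorem s22 {β : ℝ} (h : Good β) : digit β 22 = 3 ∧ rem β 22 = (-4) + (3) * β + (-3) * β ^ 2 + (-5) * β ^ 3 + (12) * β ^ 4 + (-2) * β ^ 5 := by
  have h1 := h.lo; have h1' := h.hi
  have h2 := pw h 2; have h3 := pw h 3; have h4 := pw h 4; have h5 := pw h 5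
  norm_num at h1 h1' h2 h3 h4 h5
  have := step (d := 3) (v := (-1) + (3) * β + (-3) * β ^ 2 + (-5) * β ^ 3 + (12) * β ^ 4 + (-2) * β ^ 5) (s21 h).2
    (by linear_combination (1) * h.eq) (by push_cast; linarith) (by push_cast; linarith)
  exact ⟨this.1, by rw [this.2]; push_cast; ring⟩

theorem s23 {β : ℝ} (h : Good β) : digit β 23 = 5 ∧ rem β 23 = (-3) + (-14) * β + (-3) * β ^ 2 + (1) * β ^ 3 + (-11) * β ^ 4 + (2) * β ^ 5 := by
  have h1 := h.lo; have h1' := h.hi
  have h2 := pw h 2; have h3 := pw h 3; have h4 := pw h 4; have h5 := pw h 5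
  norm_num at h1 h1' h2 h3 h4 h5
  have := step (d := 5) (v := (2) + (-14) * β + (-3) * β ^ 2 + (1) * β ^ 3 + (-11) * β ^ 4 + (2) * β ^ 5) (s22 h).2
    (by linear_combination (-2) * h.eq) (by push_cast; linarith) (by push_cast; linarith)
  exact ⟨this.1, by rw [this.2]; push_cast; ring⟩

theorem s24 {β : ℝ} (h : Good β) : digit β 24 = 0 ∧ rem β 24 = (-2) + (7) * β + (-8) * β ^ 2 + (-7) * β ^ 3 + (7) * β ^ 4 + (-1) * β ^ 5 := by
  have h1 := h.lo; have h1' := h.hi
  have h2 := pw h 2; have h3 := pw h 3; have h4 := pw h 4; have h5 := pw h 5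
  norm_num at h1 h1' h2 h3 h4 h5
  have := step (d := 0) (v := (-2) + (7) * β + (-8) * β ^ 2 + (-7) * β ^ 3 + (7) * β ^ 4 + (-1) * β ^ 5) (s23 h).2
    (by linear_combination (2) * h.eq) (by push_cast; linarith) (by push_cast; linarith)
  exact ⟨this.1, by rw [this.2]; push_cast; ring⟩

theorem s25 {β : ℝ} (h : Good β) : digit β 25 = 5 ∧ rem β 25 = (-4) + (-7) * β + (4) * β ^ 2 + (-6) * β ^ 3 + (-10) * β ^ 4 + (2) * β ^ 5 := by
  have h1 := h.lo; have h1' := h.hi
  have h2 := pw h 2; have h3 := pw h 3; have h4 := pw h 4; have h5 := pw h 5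
  norm_num at h1 h1' h2 h3 h4 h5
  have := step (d := 5) (v := (1) + (-7) * β + (4) * β ^ 2 + (-6) * β ^ 3 + (-10) * β ^ 4 + (2) * β ^ 5) (s24 h).2
    (by linear_combination (-1) * h.eq) (by push_cast; linarith) (by push_cast; linarith)
  exact ⟨this.1, by rw [this.2]; push_cast; ring⟩

theorem s26 {β : ℝ} (h : Good β) : digit β 26 = 0 ∧ rem β 26 = (-2) + (6) * β + (-1) * β ^ 2 := by
  have h1 := h.lo; have h1' := h.hi
  have h2 := pw h 2; have h3 := pw h 3; have h4 := pw h 4; have h5 := pw h 5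
  norm_num at h1 h1' h2 h3 h4 h5
  have := step (d := 0) (v := (-2) + (6) * β + (-1) * β ^ 2) (s25 h).2
    (by linear_combination (2) * h.eq) (by push_cast; linarith) (by push_cast; linarith)
  exact ⟨this.1, by rw [this.2]; push_cast; ring⟩

theorem s27 {β : ℝ} (h : Good β) : digit β 27 = 4 ∧ rem β 27 = (-4) + (-2) * β + (6) * β ^ 2 + (-1) * β ^ 3 := by
  have h1 := h.lo; have h1' := h.hi
  have h2 := pw h 2; have h3 := pw h 3; have h4 := pw h 4; have h5 := pw h 5
  norm_num at h1 h1' h2 h3 h4 h5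
  have := step (d := 4) (v := (-2) * β + (6) * β ^ 2 + (-1) * β ^ 3) (s26 h).2
    (by linear_combination (0) * h.eq) (by push_cast; linarith) (by push_cast; linarith)
  exact ⟨this.1, by rw [this.2]; push_cast; ring⟩

theorem s28 {β : ℝ} (h : Good β) : digit β 28 = 0 ∧ rem β 28 = (-4) * β + (-2) * β ^ 2 + (6) * β ^ 3 + (-1) * β ^ 4 := by
  have h1 := h.lo; have h1' := h.hi
  have h2 := pw h 2; have h3 := pw h 3; have h4 := pw h 4; have h5 := pw h 5
  norm_num at h1 h1' h2 h3 h4 h5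
  have := step (d := 0) (v := (-4) * β + (-2) * β ^ 2 + (6) * β ^ 3 + (-1) * β ^ 4) (s27 h).2
    (by linear_combination (0) * h.eq) (by push_cast; linarith) (by push_cast; linarith)
  exact ⟨this.1, by rw [this.2]; push_cast; ring⟩

theorem s29 {β : ℝ} (h : Good β) : digit β 29 = 1 ∧ rem β 29 = (-1) + (-4) * β ^ 2 + (-2) * β ^ 3 + (6) * β ^ 4 + (-1) * β ^ 5 := by
  have h1 := h.lo; have h1' := h.hi
  have h2 := pw h 2; have h3 := pw h 3; have h4 := pw h 4; have h5 := pw h 5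
  norm_num at h1 h1' h2 h3 h4 h5
  have := step (d := 1) (v := (-4) * β ^ 2 + (-2) * β ^ 3 + (6) * β ^ 4 + (-1) * β ^ 5) (s28 h).2
    (by linear_combination (0) * h.eq) (by push_cast; linarith) (by push_cast; linarith)
  exact ⟨this.1, by rw [this.2]; push_cast; ring⟩

theorem s30 {β : ℝ} (h : Good β) : digit β 30 = 4 ∧ rem β 30 = (-3) + (-6) * β + (-3) * β ^ 2 + (-2) * β ^ 3 + (-5) * β ^ 4 + (1) * β ^ 5 := by
  have h1 := h.lo; have h1' := h.hi
  have h2 := pw h 2; have h3 := pw h 3; have h4 := pw h 4; have h5 := pw h 5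
  norm_num at h1 h1' h2 h3 h4 h5
  have := step (d := 4) (v := (1) + (-6) * β + (-3) * β ^ 2 + (-2) * β ^ 3 + (-5) * β ^ 4 + (1) * β ^ 5) (s29 h).2
    (by linear_combination (-1) * h.eq) (by push_cast; linarith) (by push_cast; linarith)
  exact ⟨this.1, by rw [this.2]; push_cast; ring⟩

theorem s31 {β : ℝ} (h : Good β) : digit β 31 = 2 ∧ rem β 31 = (-3) + (2) * β + (-3) * β ^ 2 + (-5) * β ^ 3 + (1) * β ^ 4 := by
  have h1 := h.lo; have h1' := h.hi
  have h2 := pw h 2; have h3 := pw h 3; have h4 := pw h 4; have h5 := pw h 5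
  norm_num at h1 h1' h2 h3 h4 h5
  have := step (d := 2) (v := (-1) + (2) * β + (-3) * β ^ 2 + (-5) * β ^ 3 + (1) * β ^ 4) (s30 h).2
    (by linear_combination (1) * h.eq) (by push_cast; linarith) (by push_cast; linarith)
  exact ⟨this.1, by rw [this.2]; push_cast; ring⟩

theorem s32 {β : ℝ} (h : Good β) : digit β 32 = 4 ∧ rem β 32 = (-4) + (-3) * β + (2) * β ^ 2 + (-3) * β ^ 3 + (-5) * β ^ 4 + (1) * β ^ 5 := by
  have h1 := h.lo; have h1' := h.hi
  have h2 := pw h 2; have h3 := pw h 3; have h4 := pw h 4; have h5 := pw h 5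
  norm_num at h1 h1' h2 h3 h4 h5
  have := step (d := 4) (v := (-3) * β + (2) * β ^ 2 + (-3) * β ^ 3 + (-5) * β ^ 4 + (1) * β ^ 5) (s31 h).2
    (by linear_combination (0) * h.eq) (by push_cast; linarith) (by push_cast; linarith)
  exact ⟨this.1, by rw [this.2]; push_cast; ring⟩

theorem s33 {β : ℝ} (h : Good β) : digit β 33 = 4 ∧ rem β 33 = (-5) + (1) * β := by
  have h1 := h.lo; have h1' := h.hi
  have h2 := pw h 2; have h3 := pw h 3; have h4 := pw h 4; have h5 := pw h 5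
  norm_num at h1 h1' h2 h3 h4 h5
  have := step (d := 4) (v := (-1) + (1) * β) (s32 h).2
    (by linear_combination (1) * h.eq) (by push_cast; linarith) (by push_cast; linarith)
  exact ⟨this.1, by rw [this.2]; push_cast; ring⟩

theorem rem_per {β : ℝ} (h : Good β) (n : ℕ) : rem β (n + 1 + 32) = rem β (n + 1) := by
  induction n with
  | zero => rw [(s33 h).2, (s1 h).2]
  | succ n ih =>
    rw [show n + 1 + 1 + 32 = (n + 1 + 32) + 1 by ring, rem, ih, ← rem]

theorem digit_per {β : ℝ} (h : Good β) (n : ℕ) : digit β (n + 2 + 32) = digit β (n + 2) := by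
  have := rem_per h n
  simp only [digit]
  rw [show n + 2 + 32 - 1 = n + 1 + 32 by omega, this]; rfl

theorem digit_small {β : ℝ} (h : Good β) (n : ℕ) (h1 : 1 ≤ n) (h2 : n ≤ 33) : digit β n = D n := by
  interval_cases n
  · exact (s1 h).1
  · exact (s2 h).1
  · exact (s3 h).1
  · exact (s4 h).1
  · exact (s5 h).1
  · exact (s6 h).1
  · exact (s7 h).1
  · exact (s8 h).1
  · exact (s9 h).1
  · exact (s10 h).1
  · exact (s11 h).1
  · exact (s12 h).1
  · exact (s13 h).1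
  · exact (s14 h).1
  · exact (s15 h).1
  · exact (s16 h).1
  · exact (s17 h).1
  · exact (s18 h).1
  · exact (s19 h).1
  · exact (s20 h).1
  · exact (s21 h).1
  · exact (s22 h).1
  · exact (s23 h).1
  · exact (s24 h).1
  · exact (s25 h).1
  · exact (s26 h).1
  · exact (s27 h).1
  · exact (s28 h).1
  · exact (s29 h).1
  · exact (s30 h).1
  · exact (s31 h).1
  · exact (s32 h).1
  · exact (s33 h).1

theorem digit_eq {β : ℝ} (h : Good β) (n : ℕ) (h1 : 1 ≤ n) : digit β n = D n := by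
  induction n using Nat.strong_induction_on with
  | _ n ih =>
    by_cases h2 : n ≤ 33
    · exact digit_small h n h1 h2
    · obtain ⟨k, rfl⟩ : ∃ k, n = k + 2 + 32 := ⟨n - 34, by omega⟩
      rw [digit_per h, ih _ (by omega) (by omega)]
      simp only [D]
      rw [if_neg (by omega), if_neg (by omega)]
      congr 1
      omega

theorem D_mul (n k : ℕ) (hn : 2 ≤ n) : D (n + 32 * k) = D n := by
  simp only [D]
  rw [if_neg (by omega), if_neg (by omega)]
  congr 1
  omega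

theorem evper {β : ℝ} (h : Good β) : EvPer β 1 32 := by
  refine ⟨by norm_num, fun n hn => ?_⟩
  obtain ⟨k, rfl⟩ : ∃ k, n = k + 1 := ⟨n - 1, by omega⟩
  exact (digit_per h k).symm

theorem pre_least {β : ℝ} (h : Good β) : IsLeast {m | ∃ p, EvPer β m p} 1 := by
  refine ⟨⟨32, evper h⟩, ?_⟩
  rintro m ⟨p, hp, hm⟩
  by_contra hlt
  obtain rfl : m = 0 := by omega
  have key : ∀ k, digit β (1 + k * p) = digit β 1 := by
    intro k
    induction k with
    | zero => simp
    | succ k ih =>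
      rw [← ih]
      have := hm (1 + k * p) (by omega)
      simp only [add_zero] at this
      rw [this]; congr 1; ring
  have h1 := key 32
  rw [digit_eq h _ (by omega), digit_eq h _ le_rfl,
    show 1 + 32 * p = 33 + 32 * (p - 1) by omega, D_mul _ _ (by norm_num)] at h1
  revert h1; decide

theorem small_per : ∀ p ∈ Finset.Icc 1 31, ∃ n ∈ Finset.Icc 2 33, D n ≠ D (n + p) := by
  decide +kernel

theorem per_least {β : ℝ} (h : Good β) : IsLeast {p | ∃ m, EvPer β m p} 32 := by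
  refine ⟨⟨1, evper h⟩, ?_⟩
  rintro p ⟨m, hp, hm⟩
  by_contra hlt
  obtain ⟨n, hn, hne⟩ := small_per p (Finset.mem_Icc.2 ⟨hp, by omega⟩)
  have hn2 := (Finset.mem_Icc.1 hn).1
  apply hne
  have := hm (n + 31 * m) (by omega)
  rw [digit_eq h _ (by omega), digit_eq h _ (by omega),
    show n + 31 * m + m = n + 32 * m by ring, D_mul _ _ hn2,
    show n + 32 * m + p = (n + p) + 32 * m by ring, D_mul _ _ (by omega)] at this
  exact this

theorem P_monic : P.Monic := by unfold P; monicity!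

theorem P_deg : P.natDegree = 6 := by unfold P; compute_degree!

theorem Q_deg : Q.natDegree = 27 := by unfold Q; compute_degree!

theorem Q_not : Q.reverse ≠ Q := by
  intro hq
  have := congrArg (fun f => coeff f 9) hq
  simp only [coeff_reverse, Q_deg] at this
  rw [show revAt 27 9 = 18 by rw [revAt_le (by norm_num)]] at this
  simp [Q, coeff_X_pow, coeff_one] at this

theorem R_eq {β : ℝ} (h : Good β) : Pk β (1 + 32) - Pk β 1 = P * Q := by
  have e : ∀ k, Pk β k = X ^ k - ∑ i ∈ Finset.Icc 1 k, C (D i) * X ^ (k - i) := by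
    intro k
    unfold Pk
    congr 1
    exact Finset.sum_congr rfl fun i hi => by rw [digit_eq h i (Finset.mem_Icc.1 hi).1]
  rw [e, e]
  simp only [show (1 : ℕ) + 32 = 33 from rfl]
  rw [show Finset.Icc 1 33 = Finset.Ico 1 34 from rfl, Finset.sum_Ico_eq_sum_range]
  simp only [show 34 - 1 = 33 from rfl, Finset.sum_range_succ, Finset.sum_range_zero,
    Finset.Icc_self, Finset.sum_singleton]
  simp [D, L, P, Q]
  ring

theorem nofac : ∀ a0 a1 a2 b0 b1 b2 b3 b4 : ZMod 5,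
    ¬ (a0 * b0 = 1 ∧ a0 * b1 + b0 = 0 ∧ a0 * b2 + b1 = 2 ∧ a0 * b3 + b2 = 2 ∧ a0 * b4 + b3 = 2 ∧ a0 + b4 = 0) ∧
    ¬ (a0 * b0 = 1 ∧ a0 * b1 + a1 * b0 = 0 ∧ a0 * b2 + a1 * b1 + b0 = 2 ∧ a0 * b3 + a1 * b2 + b1 = 2 ∧
        a0 + a1 * b3 + b2 = 2 ∧ a1 + b3 = 0) ∧
    ¬ (a0 * b0 = 1 ∧ a0 * b1 + a1 * b0 = 0 ∧ a0 * b2 + a1 * b1 + a2 * b0 = 2 ∧ a0 + a1 * b2 + a2 * b1 + b0 = 2 ∧
        a1 + a2 * b2 + b1 = 2 ∧ a2 + b2 = 0) := by
  intro a0 a1 a2 b0 b1 b2 b3 b4
  refine ⟨?_, ?_, ?_⟩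
  · rintro ⟨h0, h1, h2, h3, h4, h5⟩
    obtain rfl : b4 = -a0 := by linear_combination h5
    obtain rfl : b3 = 2 - a0 * (-a0) := by linear_combination h4
    obtain rfl : b2 = 2 - a0 * (2 - a0 * (-a0)) := by linear_combination h3
    clear h3 h4 h5
    revert a0 b0 b1; decide +kernel
  · rintro ⟨h0, h1, h2, h3, h4, h5⟩
    obtain rfl : b3 = -a1 := by linear_combination h5
    obtain rfl : b2 = 2 - a0 - a1 * (-a1) := by linear_combination h4
    clear h4 h5
    revert a0 a1 b0 b1; decide +kernel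
  · rintro ⟨h0, h1, h2, h3, h4, h5⟩
    obtain rfl : b2 = -a2 := by linear_combination h5
    obtain rfl : b1 = 2 - a1 - a2 * (-a2) := by linear_combination h4
    clear h4 h5
    revert a0 a1 a2 b0; decide +kernel

theorem P_irr : Irreducible P := by
  rw [Polynomial.Monic.irreducible_iff_lt_natDegree_lt P_monic]
  swap
  · intro h1
    have := P_deg
    rw [h1] at this
    simp at this
  intro q hq hd ⟨r, hr⟩
  have hrm : r.Monic := hq.of_mul_monic_left (hr ▸ P_monic)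
  have hdeg : q.natDegree + r.natDegree = 6 := by rw [← hq.natDegree_mul hrm, ← hr, P_deg]
  rw [P_deg, Finset.mem_Ioc] at hd
  have c : ∀ k, ((P.coeff k : ℤ) : ZMod 5) =
      ∑ x ∈ Finset.HasAntidiagonal.antidiagonal k, ((q.coeff x.1 : ℤ) : ZMod 5) * ((r.coeff x.2 : ℤ) : ZMod 5) := by
    intro k; rw [hr, coeff_mul]; push_cast; rfl
  have c0 := c 0; have c1 := c 1; have c2 := c 2; have c3 := c 3; have c4 := c 4; have c5 := c 5
  have p0 : P.coeff 0 = 1 := by simp [P, coeff_X_pow, coeff_one, coeff_X]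
  have p1 : P.coeff 1 = -5 := by simp [P, coeff_X_pow, coeff_one, coeff_X]
  have p2 : P.coeff 2 = -3 := by simp [P, coeff_X_pow, coeff_one, coeff_X]
  have p3 : P.coeff 3 = 2 := by simp [P, coeff_X_pow, coeff_one, coeff_X]
  have p4 : P.coeff 4 = -3 := by simp [P, coeff_X_pow, coeff_one, coeff_X]
  have p5 : P.coeff 5 = -5 := by simp [P, coeff_X_pow, coeff_one, coeff_X]
  rw [p0] at c0; rw [p1] at c1; rw [p2] at c2; rw [p3] at c3; rw [p4] at c4; rw [p5] at c5
  simp only [Finset.Nat.antidiagonal_succ, Finset.Nat.antidiagonal_zero, Finset.sum_cons,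
    Finset.sum_map, Finset.sum_singleton, Function.Embedding.coe_prodMap, Prod.map,
    Function.Embedding.coeFn_mk, Function.Embedding.refl_apply, Nat.succ_eq_add_one,
    Nat.reduceAdd, zero_add] at c0 c1 c2 c3 c4 c5
  have q1 := hq.coeff_natDegree
  have r1 := hrm.coeff_natDegree
  have qz : ∀ i, q.natDegree < i → q.coeff i = 0 := fun i hi => coeff_eq_zero_of_natDegree_lt hi
  have rz : ∀ i, r.natDegree < i → r.coeff i = 0 := fun i hi => coeff_eq_zero_of_natDegree_lt hi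
  have five : (5 : ZMod 5) = 0 := rfl
  have N := nofac (q.coeff 0 : ℤ) (q.coeff 1 : ℤ) (q.coeff 2 : ℤ) (r.coeff 0 : ℤ) (r.coeff 1 : ℤ)
    (r.coeff 2 : ℤ) (r.coeff 3 : ℤ) (r.coeff 4 : ℤ)
  have hcase : q.natDegree = 1 ∨ q.natDegree = 2 ∨ q.natDegree = 3 := by omega
  rcases hcase with hq' | hq' | hq'
  · have hr' : r.natDegree = 5 := by omega
    rw [hq'] at q1 qz; rw [hr'] at r1 rz
    simp only [q1, r1, qz 2 (by norm_num), qz 3 (by norm_num), qz 4 (by norm_num),
      qz 5 (by norm_num)] at c0 c1 c2 c3 c4 c5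
    push_cast at c0 c1 c2 c3 c4 c5
    exact N.1 ⟨by linear_combination -c0, by linear_combination -c1 - five,
      by linear_combination -c2 - five, by linear_combination -c3, by linear_combination -c4 - five,
      by linear_combination -c5 - five⟩
  · have hr' : r.natDegree = 4 := by omega
    rw [hq'] at q1 qz; rw [hr'] at r1 rz
    simp only [q1, r1, qz 3 (by norm_num), qz 4 (by norm_num),
      qz 5 (by norm_num), rz 5 (by norm_num)] at c0 c1 c2 c3 c4 c5
    push_cast at c0 c1 c2 c3 c4 c5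
    exact N.2.1 ⟨by linear_combination -c0, by linear_combination -c1 - five,
      by linear_combination -c2 - five, by linear_combination -c3, by linear_combination -c4 - five,
      by linear_combination -c5 - five⟩
  · have hr' : r.natDegree = 3 := by omega
    rw [hq'] at q1 qz; rw [hr'] at r1 rz
    simp only [q1, r1, qz 4 (by norm_num), rz 4 (by norm_num),
      qz 5 (by norm_num), rz 5 (by norm_num)] at c0 c1 c2 c3 c4 c5
    push_cast at c0 c1 c2 c3 c4 c5
    exact N.2.2 ⟨by linear_combination -c0, by linear_combination -c1 - five,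
      by linear_combination -c2 - five, by linear_combination -c3, by linear_combination -c4 - five,
      by linear_combination -c5 - five⟩

theorem aeval_P {A : Type} [CommRing A] (x : A) :
    aeval x P = x ^ 6 - 5 * x ^ 5 - 3 * x ^ 4 + 2 * x ^ 3 - 3 * x ^ 2 - 5 * x + 1 := by
  simp [P, map_ofNat]

theorem integral {β : ℝ} (h : Good β) : IsIntegral ℤ β :=
  ⟨P, P_monic, by rw [← aeval_def, aeval_P]; exact h.eq⟩

theorem minpoly_eq {β : ℝ} (h : Good β) : minpoly ℤ β = P := by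
  have hd : minpoly ℤ β ∣ P :=
    minpoly.isIntegrallyClosed_dvd (integral h) (by rw [aeval_P]; exact h.eq)
  exact eq_of_monic_of_associated (minpoly.monic (integral h)) P_monic
    ((minpoly.irreducible (integral h)).associated_of_dvd P_irr hd)

theorem unit {y : ℝ} (h1 : -2 < y) (h2 : y < 2) {α : ℂ} (h : α ^ 2 - y * α + 1 = 0) : ‖α‖ = 1 := by
  have hre := congrArg Complex.re h
  have him := congrArg Complex.im h
  simp [pow_two] at hre him
  have hn : ‖α‖ ^ 2 = 1 := by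
    rw [Complex.sq_norm, Complex.normSq_apply]
    by_cases hv : α.im = 0
    · rw [hv] at hre; nlinarith [sq_nonneg (2 * α.re - y)]
    · have : y = 2 * α.re := by
        have : α.im * (2 * α.re - y) = 0 := by linarith
        rcases mul_eq_zero.1 this with h | h
        · exact absurd h hv
        · linarith
      rw [this] at hre; nlinarith
  nlinarith [norm_nonneg α]

theorem salem {β : ℝ} (h : Good β) : IsSalem β := by
  have hb : (5 : ℝ) < β := by have := h.lo; norm_num at this; linarith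
  have hc : ∀ a b : ℝ, ContinuousOn (fun y : ℝ => y ^ 3 - 5 * y ^ 2 - 6 * y + 12) (Set.Icc a b) :=
    fun a b => by fun_prop
  obtain ⟨y, ⟨a1, a2⟩, hy⟩ := intermediate_value_Ioo (show (-2 : ℝ) ≤ -1 by norm_num) (hc _ _)
    (show (0 : ℝ) ∈ Set.Ioo _ _ by constructor <;> norm_num)
  obtain ⟨z, ⟨b1, b2⟩, hz⟩ := intermediate_value_Ioo' (show (1 : ℝ) ≤ 2 by norm_num) (hc _ _)
    (show (0 : ℝ) ∈ Set.Ioo _ _ by constructor <;> norm_num)
  simp only at hy hz
  have e2 : y * z + (5 - y - z) * (y + z) = -6 := by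
    have : (y - z) * (y * z + (5 - y - z) * (y + z) + 6) = 0 := by linear_combination hz - hy
    rcases mul_eq_zero.1 this with h | h <;> linarith
  have e3 : y * z * (5 - y - z) = -12 := by linear_combination hy + y * e2
  have fac : ∀ x : ℂ, x ^ 6 - 5 * x ^ 5 - 3 * x ^ 4 + 2 * x ^ 3 - 3 * x ^ 2 - 5 * x + 1 =
      (x ^ 2 - y * x + 1) * (x ^ 2 - z * x + 1) * (x ^ 2 - (5 - y - z : ℝ) * x + 1) := by
    intro x
    have e2' : (y : ℂ) * z + (5 - y - z) * (y + z) = -6 := by exact_mod_cast e2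
    have e3' : (y : ℂ) * z * (5 - y - z) = -12 := by exact_mod_cast e3
    push_cast
    linear_combination (-(x ^ 4 + x ^ 2)) * e2' + x ^ 3 * e3'
  have hβn : ‖(β : ℂ)‖ = β := by rw [Complex.norm_real, Real.norm_eq_abs, abs_of_pos (by linarith)]
  have hβ3 : (β : ℂ) ^ 2 - (5 - y - z : ℝ) * β + 1 = 0 := by
    have h0 : (β : ℂ) ^ 6 - 5 * β ^ 5 - 3 * β ^ 4 + 2 * β ^ 3 - 3 * β ^ 2 - 5 * β + 1 = 0 := by
      exact_mod_cast h.eq
    rw [fac] at h0
    rcases mul_eq_zero.1 h0 with h0 | h0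
    · rcases mul_eq_zero.1 h0 with h0 | h0
      · have := unit a1 (by linarith) h0; linarith
      · have := unit (by linarith) b2 h0; linarith
    · exact h0
  refine ⟨by linarith, integral h, ?_, ?_⟩
  · intro α hα hne
    rw [minpoly_eq h, aeval_P, fac] at hα
    rcases mul_eq_zero.1 hα with h0 | h0
    · rcases mul_eq_zero.1 h0 with h0 | h0
      · exact (unit a1 (by linarith) h0).le
      · exact (unit (by linarith) b2 h0).le
    · have : (α - β) * (α * β - 1) = 0 := by linear_combination β * h0 - α * hβ3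
      rcases mul_eq_zero.1 this with h1 | h1
      · exact absurd (sub_eq_zero.1 h1) hne
      · have h2 : ‖α‖ * β = 1 := by rw [← hβn, ← norm_mul, sub_eq_zero.1 h1, norm_one]
        nlinarith [norm_nonneg α]
  · obtain ⟨α, hα⟩ : ∃ α : ℂ, α ^ 2 - z * α + 1 = 0 := by
      obtain ⟨s, hs⟩ := IsAlgClosed.exists_pow_nat_eq ((z : ℂ) ^ 2 - 4) (show 0 < 2 by norm_num)
      exact ⟨(z + s) / 2, by linear_combination hs / 4⟩
    refine ⟨α, ?_, unit (by linarith) b2 hα⟩
    rw [minpoly_eq h, aeval_P, fac, hα]; ring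

theorem result : ∃ β : ℝ, IsSalem β ∧ (minpoly ℤ β).natDegree = 6 ∧
    ∃ p : ℕ, IsLeast {m | ∃ p', EvPer β m p'} 1 ∧ IsLeast {p' | ∃ m, EvPer β m p'} p ∧
      EvPer β 1 p ∧
      ∃ q : ℤ[X], Pk β (1 + p) - Pk β 1 = minpoly ℤ β * q ∧ q.reverse ≠ q := by
  obtain ⟨β, h⟩ := exists_good
  refine ⟨β, salem h, by rw [minpoly_eq h, P_deg], 32, pre_least h, per_least h, evper h, Q, ?_, Q_not⟩
  rw [minpoly_eq h, R_eq h]

end Pool.Agent.Results.MP_9c9d6b_nt.NonRecip
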